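import Pool.Agent.Helper3.DL.DecOf
import Pool.Agent.Helper70.DL.KeyMain

/-!
# The Demeter-Langowski conjecture on local mean values of Weyl sums
-/

namespace Pool.Agent.Results.MP_1f5042_nt.LocalMeanWeyl

open MeasureTheory Finset

/-- Q1 holds: for every `d ≥ 4`, every real `s > 0` and every `ε > 0`, once `N` is large,
the mean value of `|∑ a_n e(x_1 n + ... + x_d n^d)|^{2s}` over `[0, δ]^d` is at most
`δ^{(d+1)/2} (∑ |a_n|²)^s (1 + N^{s - ρ(d)/2}) N^ε` with `ρ(d) = ⌈3d²/4⌉ - 1`, for all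
`0 < δ < 1` and all complex weights. -/
theorem result (d : ℕ) (hd : 4 ≤ d) (s : ℝ) (hs : 0 < s) (ε : ℝ) (hε : 0 < ε) :
    ∃ N₀ : ℕ, ∀ N : ℕ, N₀ ≤ N → ∀ δ : ℝ, 0 < δ → δ < 1 → ∀ a : ℕ → ℂ,
      ∫ x in Set.Icc (0 : Fin d → ℝ) (fun _ => δ),
        ‖∑ j ∈ Icc 1 N, a j * Complex.exp (2 * Real.pi * Complex.I *
          ((∑ i : Fin d, x i * (j : ℝ) ^ ((i : ℕ) + 1) : ℝ) : ℂ))‖ ^ (2 * s) ≤
        δ ^ (((d : ℝ) + 1) / 2) * (∑ j ∈ Icc 1 N, ‖a j‖ ^ 2) ^ s *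
          (1 + (N : ℝ) ^ (s - ((⌈3 * (d : ℝ) ^ 2 / 4⌉ : ℝ) - 1) / 2)) * (N : ℝ) ^ ε :=
  Pool.Agent.DL.final_of_key Pool.Agent.DL.bil_key d hd s hs ε hε

end Pool.Agent.Results.MP_1f5042_nt.LocalMeanWeyl
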